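import Mathlib

set_option autoImplicit false

namespace Pool.Agent.Results.MP_185394_co.NineFourteenths

open Finset

/-- Latin square: every row and every column contains every symbol exactly once. -/
def IsLatin {R C S : Type} (L : R → C → S) : Prop :=
  (∀ i, Function.Bijective (L i)) ∧ ∀ j, Function.Bijective fun i => L i j

/-- `P` is a `k`-plex of `L`: a set of cells with exactly `k` cells in every row, `k` cells in every
column and `k` cells carrying each symbol. -/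
def IsPlex {R C S : Type} [DecidableEq R] [DecidableEq C] [DecidableEq S]
    (L : R → C → S) (k : ℕ) (P : Finset (R × C)) : Prop :=
  (∀ i, (P.filter fun c => c.1 = i).card = k) ∧
  (∀ j, (P.filter fun c => c.2 = j).card = k) ∧
  ∀ s, (P.filter fun c => L c.1 c.2 = s).card = k

/-- an indivisible `k`-plex: it contains no `c`-plex with `0 < c < k`. -/
def IsIndivisible {R C S : Type} [DecidableEq R] [DecidableEq C] [DecidableEq S]
    (L : R → C → S) (k : ℕ) (P : Finset (R × C)) : Prop :=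
  IsPlex L k P ∧ ∀ c, 0 < c → c < k → ∀ Q, Q ⊆ P → ¬ IsPlex L c Q

/-- `κ(n)`: the largest `k ≥ 1` such that some Latin square of order `n` contains an indivisible
`k`-plex. -/
noncomputable def kappa (n : ℕ) : ℕ :=
  sSup {k | 1 ≤ k ∧ ∃ L : Fin n → Fin n → Fin n, IsLatin L ∧ ∃ P, IsIndivisible L k P}

/-! ### zero-sum labels force indivisibility -/

theorem sum_label {A T : Type} [Fintype T] [DecidableEq T] (Q : Finset A) (f : A → T) {k c : ℕ}
    (w : T → ZMod k) (h : ∀ t, (Q.filter fun p => f p = t).card = c) :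
    ∑ p ∈ Q, w (f p) = (c : ZMod k) * ∑ t, w t := by
  rw [← Finset.sum_fiberwise Q f, Finset.mul_sum]
  refine Finset.sum_congr rfl fun t _ => ?_
  rw [Finset.sum_congr rfl (g := fun _ => w t)
    (fun p hp => by rw [(Finset.mem_filter.mp hp).2])]
  rw [Finset.sum_const, h t, nsmul_eq_mul]

theorem indivisible_of_label {R C S : Type} [Fintype R] [Fintype C] [Fintype S]
    [DecidableEq R] [DecidableEq C] [DecidableEq S] (L : R → C → S) (k : ℕ)
    (P : Finset (R × C)) (hP : IsPlex L k P) (a : R → ZMod k) (b : C → ZMod k) (s : S → ZMod k)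
    (hz : ∀ p ∈ P, a p.1 + b p.2 + s (L p.1 p.2) = 0)
    (hW : IsUnit (∑ i, a i + ∑ j, b j + ∑ x, s x)) : IsIndivisible L k P := by
  refine ⟨hP, fun c hc hck Q hQ hQp => ?_⟩
  have h1 := sum_label Q (fun p : R × C => p.1) a hQp.1
  have h2 := sum_label Q (fun p : R × C => p.2) b hQp.2.1
  have h3 := sum_label Q (fun p : R × C => L p.1 p.2) s hQp.2.2
  have h4 : ∑ p ∈ Q, (a p.1 + b p.2 + s (L p.1 p.2)) = 0 :=
    Finset.sum_eq_zero fun p hp => hz p (hQ hp)
  rw [Finset.sum_add_distrib, Finset.sum_add_distrib, h1, h2, h3, ← mul_add, ← mul_add] at h4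
  have h5 : (c : ZMod k) = 0 := (hW.mul_left_eq_zero).mp h4
  have h6 := (ZMod.natCast_eq_zero_iff c k).mp h5
  exact absurd (Nat.le_of_dvd hc h6) (by omega)

theorem transport {R C S : Type} [Fintype R] [Fintype C] [Fintype S]
    [DecidableEq R] [DecidableEq C] [DecidableEq S] (n : ℕ)
    (eR : R ≃ Fin n) (eC : C ≃ Fin n) (eS : S ≃ Fin n)
    (L : R → C → S) (hL : IsLatin L) (k : ℕ)
    (P : Finset (R × C)) (hP : IsPlex L k P) (a : R → ZMod k) (b : C → ZMod k) (s : S → ZMod k)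
    (hz : ∀ p ∈ P, a p.1 + b p.2 + s (L p.1 p.2) = 0)
    (hW : IsUnit (∑ i, a i + ∑ j, b j + ∑ x, s x)) :
    ∃ L' : Fin n → Fin n → Fin n, IsLatin L' ∧ ∃ P', IsIndivisible L' k P' := by
  refine ⟨fun i j => eS (L (eR.symm i) (eC.symm j)), ⟨fun i => ?_, fun j => ?_⟩,
    P.map (eR.prodCongr eC).toEmbedding, ?_⟩
  · exact (eS.bijective.comp (hL.1 (eR.symm i))).comp eC.symm.bijective
  · exact (eS.bijective.comp (hL.2 (eC.symm j))).comp eR.symm.bijective
  · refine indivisible_of_label _ k _ ⟨fun i => ?_, fun j => ?_, fun t => ?_⟩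
      (fun i => a (eR.symm i)) (fun j => b (eC.symm j)) (fun x => s (eS.symm x)) ?_ ?_
    · rw [Finset.filter_map, Finset.card_map, ← hP.1 (eR.symm i)]
      congr 1
      ext p
      simp [Equiv.eq_symm_apply]
    · rw [Finset.filter_map, Finset.card_map, ← hP.2.1 (eC.symm j)]
      congr 1
      ext p
      simp [Equiv.eq_symm_apply]
    · rw [Finset.filter_map, Finset.card_map, ← hP.2.2 (eS.symm t)]
      congr 1
      ext p
      simp [Equiv.eq_symm_apply]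
    · intro p hp
      obtain ⟨q, hq, rfl⟩ := Finset.mem_map.mp hp
      simpa using hz q hq
    · rw [Equiv.sum_comp eR.symm a, Equiv.sum_comp eC.symm b, Equiv.sum_comp eS.symm s]
      exact hW

/-! ### the coarse data: two Latin squares of order 14, labels mod 9 -/

def LA : Fin 14 → Fin 14 → Fin 14 :=
  ![![1, 4, 12, 13, 10, 11, 8, 9, 6, 7, 5, 3, 0, 2],
    ![11, 0, 13, 12, 1, 2, 9, 8, 7, 6, 10, 4, 3, 5],
    ![0, 13, 3, 10, 9, 8, 7, 6, 2, 5, 4, 12, 11, 1],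
    ![13, 12, 10, 11, 8, 4, 6, 7, 5, 3, 1, 9, 2, 0],
    ![8, 10, 11, 9, 6, 7, 5, 3, 0, 4, 12, 2, 1, 13],
    ![10, 11, 9, 8, 7, 6, 2, 5, 4, 1, 3, 0, 13, 12],
    ![9, 8, 7, 6, 11, 5, 0, 4, 3, 13, 2, 1, 12, 10],
    ![6, 7, 8, 5, 4, 9, 3, 1, 12, 2, 0, 13, 10, 11],
    ![5, 9, 4, 7, 12, 3, 10, 2, 1, 0, 13, 11, 8, 6],
    ![4, 6, 5, 3, 2, 10, 1, 0, 13, 12, 11, 8, 7, 9],
    ![3, 1, 6, 2, 5, 0, 13, 12, 10, 11, 8, 7, 9, 4],
    ![7, 3, 2, 4, 0, 1, 12, 13, 11, 10, 9, 6, 5, 8],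
    ![2, 5, 0, 1, 13, 12, 4, 11, 8, 9, 7, 10, 6, 3],
    ![12, 2, 1, 0, 3, 13, 11, 10, 9, 8, 6, 5, 4, 7]]

def LB : Fin 14 → Fin 14 → Fin 14 :=
  ![![1, 3, 12, 13, 10, 11, 2, 8, 0, 6, 5, 4, 9, 7],
    ![4, 0, 1, 12, 11, 10, 8, 9, 7, 13, 6, 5, 3, 2],
    ![12, 13, 10, 4, 9, 0, 7, 6, 11, 5, 8, 3, 2, 1],
    ![13, 12, 3, 11, 8, 9, 6, 2, 5, 1, 4, 10, 7, 0],
    ![0, 11, 8, 9, 6, 7, 12, 5, 4, 10, 13, 2, 1, 3],
    ![10, 1, 9, 2, 7, 6, 5, 11, 12, 4, 3, 8, 0, 13],
    ![8, 10, 6, 7, 12, 5, 1, 4, 9, 3, 2, 0, 13, 11],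
    ![9, 8, 13, 6, 5, 2, 4, 0, 3, 7, 11, 1, 12, 10],
    ![6, 7, 5, 0, 4, 12, 10, 3, 2, 8, 1, 13, 11, 9],
    ![7, 9, 11, 5, 1, 4, 3, 13, 6, 2, 0, 12, 10, 8],
    ![2, 5, 4, 10, 13, 3, 9, 7, 1, 0, 12, 11, 8, 6],
    ![11, 4, 7, 3, 2, 8, 0, 1, 13, 12, 10, 9, 6, 5],
    ![3, 6, 2, 8, 0, 1, 13, 12, 10, 11, 9, 7, 5, 4],
    ![5, 2, 0, 1, 3, 13, 11, 10, 8, 9, 7, 6, 4, 12]]

/-- the two coarse squares -/
def Lc (b : Bool) : Fin 14 → Fin 14 → Fin 14 := if b then LB else LA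

def rA : Fin 14 → ℕ := ![0, 0, 1, 1, 2, 2, 3, 4, 5, 6, 7, 7, 8, 8]

def rB : Fin 14 → ℕ := ![0, 0, 1, 1, 2, 2, 3, 3, 4, 4, 5, 6, 7, 8]

/-- coarse row labels -/
def rc (b : Bool) : Fin 14 → ℕ := if b then rB else rA

/-- coarse column labels -/
def cl : Fin 14 → ℕ := ![0, 0, 1, 1, 2, 2, 3, 3, 4, 4, 5, 6, 7, 8]

/-- coarse symbol labels -/
def sl : Fin 14 → ℕ := ![0, 0, 1, 2, 3, 4, 5, 5, 6, 6, 7, 7, 8, 8]

def tau (J S : Fin 14) : ℕ := (cl J + sl S + 8) / 9

def pA : Fin 14 → Finset (Fin 14) :=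
  ![{0, 2, 4, 5, 7, 8, 9, 10, 13},
    {1, 2, 3, 6, 7, 8, 9, 11, 12},
    {1, 3, 4, 5, 6, 7, 9, 10, 13},
    {0, 1, 2, 3, 4, 6, 8, 12, 13},
    {1, 3, 4, 5, 6, 9, 11, 12, 13},
    {0, 1, 2, 3, 4, 5, 7, 10, 13},
    {0, 1, 2, 7, 8, 10, 11, 12, 13},
    {0, 1, 3, 4, 6, 9, 10, 11, 12},
    {0, 2, 5, 8, 9, 10, 11, 12, 13},
    {0, 3, 4, 6, 7, 9, 10, 11, 12},
    {0, 5, 6, 7, 8, 9, 10, 11, 13},
    {1, 2, 4, 5, 6, 8, 10, 11, 12},
    {0, 2, 3, 4, 5, 7, 8, 9, 13},
    {1, 2, 3, 5, 6, 7, 8, 11, 12}]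

def pB : Fin 14 → Finset (Fin 14) :=
  ![{0, 2, 3, 4, 5, 7, 9, 10, 11},
    {1, 3, 4, 5, 6, 7, 8, 12, 13},
    {0, 1, 2, 4, 6, 7, 9, 12, 13},
    {0, 1, 3, 4, 5, 6, 8, 10, 13},
    {1, 2, 3, 4, 5, 7, 8, 11, 12},
    {0, 2, 4, 5, 6, 9, 10, 12, 13},
    {0, 2, 3, 7, 9, 10, 11, 12, 13},
    {0, 1, 3, 4, 6, 8, 11, 12, 13},
    {0, 1, 2, 7, 8, 10, 11, 12, 13},
    {0, 3, 5, 6, 9, 10, 11, 12, 13},
    {1, 2, 5, 8, 9, 10, 11, 12, 13},
    {1, 3, 4, 6, 7, 8, 9, 10, 11},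
    {0, 2, 4, 5, 6, 7, 8, 9, 11},
    {1, 2, 3, 5, 6, 7, 8, 9, 10}]

/-- the columns used in a coarse row -/
def pc (b : Bool) : Fin 14 → Finset (Fin 14) := if b then pB else pA

theorem Lc_row : ∀ (b : Bool) (I J J' : Fin 14), Lc b I J = Lc b I J' → J = J' := by
  decide +kernel

theorem Lc_col : ∀ (b : Bool) (J I I' : Fin 14), Lc b I J = Lc b I' J → I = I' := by
  decide +kernel

theorem zero_coarse : ∀ (b : Bool) (I J : Fin 14), J ∈ pc b I →
    rc b I + cl J + sl (Lc b I J) = 9 * tau J (Lc b I J) := by decide +kernel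

theorem pc_card : ∀ (b : Bool) (I : Fin 14), (pc b I).card = 9 := by decide +kernel

theorem pc_col : ∀ (b : Bool) (J : Fin 14),
    (∑ I : Fin 14, if J ∈ pc b I then 1 else 0) = 9 := by decide +kernel

theorem pc_sym : ∀ (b : Bool) (S : Fin 14),
    (∑ I : Fin 14, ∑ J : Fin 14, if J ∈ pc b I ∧ Lc b I J = S then 1 else 0) = 9 := by
  decide +kernel

/-! ### the labels of the fine structure -/

theorem kk_mul_cast {g a b : ℕ} (h : a ≡ b [MOD g]) :
    (9 * (a : ZMod (9 * g))) = 9 * (b : ZMod (9 * g)) := by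
  have := (ZMod.natCast_eq_natCast_iff (9 * a) (9 * b) (9 * g)).2 (h.mul_left' 9)
  push_cast at this
  exact this

noncomputable def phi (g : ℕ) [NeZero g] : ZMod g →+ ZMod (9 * g) :=
  AddMonoidHom.mk' (fun x => 9 * ((x.val : ℕ) : ZMod (9 * g))) (fun x y => by
    rw [← mul_add, ← Nat.cast_add]
    exact kk_mul_cast (by rw [ZMod.val_add]; exact Nat.mod_modEq _ _))

theorem phi_natCast (g : ℕ) [NeZero g] (n : ℕ) :
    phi g (n : ZMod g) = 9 * (n : ZMod (9 * g)) := by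
  change 9 * (((n : ZMod g).val : ℕ) : ZMod (9 * g)) = _
  exact kk_mul_cast (by rw [ZMod.val_natCast]; exact Nat.mod_modEq _ _)

theorem phi_sum (g : ℕ) [NeZero g] (hg : Odd g) : ∑ x : ZMod g, phi g x = 0 := by
  have h1 : ∑ x : ZMod g, x = - ∑ x : ZMod g, x := by
    rw [← Finset.sum_neg_distrib]
    rw [← Equiv.sum_comp (Equiv.neg (ZMod g))]
    exact Finset.sum_congr rfl fun x _ => by simp
  have h2 : ((2 : ℕ) : ZMod g) * ∑ x : ZMod g, x = 0 := by
    push_cast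
    rw [two_mul]
    nth_rewrite 1 [h1]
    simp
  have hu : IsUnit ((2 : ℕ) : ZMod g) := (ZMod.isUnit_iff_coprime 2 g).mpr (by
    rw [Nat.coprime_two_left]
    exact hg)
  rw [← map_sum, (hu.mul_right_eq_zero).mp h2, map_zero]

/-! ### the Latin square and the plex -/

/-- the layer `i` of the rows uses the square `LB` for `i = 0` and `LA` otherwise -/
def LL (g : ℕ) (ρ c : Fin 14 × ZMod g) : Fin 14 × ZMod g :=
  (Lc (decide (ρ.2 = 0)) ρ.1 c.1,
    -ρ.2 - c.2 - ((tau c.1 (Lc (decide (ρ.2 = 0)) ρ.1 c.1) : ℕ) : ZMod g))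

theorem LL_latin (g : ℕ) [NeZero g] : IsLatin (LL g) := by
  refine ⟨fun ρ => Finite.injective_iff_bijective.mp ?_,
    fun c => Finite.injective_iff_bijective.mp ?_⟩
  · rintro ⟨J, j⟩ ⟨J', j'⟩ h
    have e1 := congrArg Prod.fst h
    have e2 := congrArg Prod.snd h
    simp only [LL] at e1 e2
    have hJ := Lc_row _ _ _ _ e1
    subst hJ
    have : j = j' := by
      have e3 := sub_left_injective e2
      simpa using e3
    rw [this]
  · rintro ⟨I, i⟩ ⟨I', i'⟩ h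
    have e1 := congrArg Prod.fst h
    have e2 := congrArg Prod.snd h
    simp only [LL] at e1 e2
    rw [e1] at e2
    have e3 := sub_left_injective (sub_left_injective e2)
    have hi : i = i' := by simpa using e3
    subst hi
    have hI := Lc_col _ _ _ _ e1
    rw [hI]

def PP (g : ℕ) [NeZero g] : Finset ((Fin 14 × ZMod g) × (Fin 14 × ZMod g)) :=
  Finset.univ.filter fun p => p.2.1 ∈ pc (decide (p.1.2 = 0)) p.1.1

theorem PP_row (g : ℕ) [NeZero g] (ρ : Fin 14 × ZMod g) :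
    ((PP g).filter fun c => c.1 = ρ).card = 9 * g := by
  have : ((PP g).filter fun c => c.1 = ρ) =
      ({ρ} : Finset (Fin 14 × ZMod g)) ×ˢ
        (pc (decide (ρ.2 = 0)) ρ.1 ×ˢ (Finset.univ : Finset (ZMod g))) := by
    ext p
    simp only [PP, Finset.mem_filter, Finset.mem_univ, true_and, Finset.mem_product,
      Finset.mem_singleton, and_true]
    constructor
    · rintro ⟨h1, h2⟩; subst h2; exact ⟨rfl, h1⟩
    · rintro ⟨h1, h2⟩; subst h1; exact ⟨h2, rfl⟩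
  rw [this, Finset.card_product, Finset.card_product, pc_card]
  simp [ZMod.card]

theorem PP_col (g : ℕ) [NeZero g] (c : Fin 14 × ZMod g) :
    ((PP g).filter fun p => p.2 = c).card = 9 * g := by
  have h : ((PP g).filter fun p => p.2 = c) =
      (Finset.univ.filter fun ρ : Fin 14 × ZMod g => c.1 ∈ pc (decide (ρ.2 = 0)) ρ.1) ×ˢ
        ({c} : Finset (Fin 14 × ZMod g)) := by
    ext p
    simp only [PP, Finset.mem_filter, Finset.mem_univ, true_and, Finset.mem_product,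
      Finset.mem_singleton]
    constructor
    · rintro ⟨h1, h2⟩; subst h2; exact ⟨h1, rfl⟩
    · rintro ⟨h1, h2⟩; subst h2; exact ⟨h1, rfl⟩
  rw [h, Finset.card_product, Finset.card_singleton, mul_one, Finset.card_filter,
    Fintype.sum_prod_type_right]
  rw [Finset.sum_congr rfl (fun i _ => pc_col (decide (i = 0)) c.1)]
  simp [ZMod.card, mul_comm]

theorem PP_sym (g : ℕ) [NeZero g] (s : Fin 14 × ZMod g) :
    ((PP g).filter fun p => LL g p.1 p.2 = s).card = 9 * g := by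
  have h1 : ((PP g).filter fun p => LL g p.1 p.2 = s).card =
      (Finset.univ.filter fun q : (Fin 14 × ZMod g) × Fin 14 =>
        q.2 ∈ pc (decide (q.1.2 = 0)) q.1.1 ∧
          Lc (decide (q.1.2 = 0)) q.1.1 q.2 = s.1).card := by
    refine Finset.card_nbij' (fun p => (p.1, p.2.1))
      (fun q => (q.1, (q.2, -q.1.2 -
        ((tau q.2 (Lc (decide (q.1.2 = 0)) q.1.1 q.2) : ℕ) : ZMod g) - s.2))) ?_ ?_ ?_ ?_
    · intro p hp
      simp only [PP, Finset.coe_filter, Finset.mem_filter, Finset.mem_univ, true_and,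
        Set.mem_ofPred_eq] at hp ⊢
      refine ⟨hp.1, ?_⟩
      rw [← hp.2]
      rfl
    · intro q hq
      simp only [PP, Finset.coe_filter, Finset.mem_filter, Finset.mem_univ, true_and,
        Set.mem_ofPred_eq] at hq ⊢
      refine ⟨hq.1, ?_⟩
      refine Prod.ext hq.2 ?_
      simp only [LL]
      ring
    · rintro ⟨ρ, J, j⟩ hp
      simp only [PP, Finset.coe_filter, Finset.mem_filter, Finset.mem_univ, true_and,
        Set.mem_ofPred_eq] at hp ⊢
      have e2 := congrArg Prod.snd hp.2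
      simp only [LL] at e2
      rw [← e2]
      refine Prod.ext rfl (Prod.ext rfl ?_)
      simp only
      ring
    · rintro ⟨ρ, J⟩ hq
      rfl
  rw [h1, Finset.card_filter, Fintype.sum_prod_type, Fintype.sum_prod_type_right]
  rw [Finset.sum_congr rfl (fun i _ => pc_sym (decide (i = 0)) s.1)]
  simp [ZMod.card, mul_comm]

/-- row labels -/
noncomputable def lamR (g : ℕ) [NeZero g] (ρ : Fin 14 × ZMod g) : ZMod (9 * g) :=
  (rc (decide (ρ.2 = 0)) ρ.1 : ZMod (9 * g)) + phi g ρ.2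

noncomputable def lamC (g : ℕ) [NeZero g] (c : Fin 14 × ZMod g) : ZMod (9 * g) :=
  (cl c.1 : ZMod (9 * g)) + phi g c.2

noncomputable def lamS (g : ℕ) [NeZero g] (s : Fin 14 × ZMod g) : ZMod (9 * g) :=
  (sl s.1 : ZMod (9 * g)) + phi g s.2

theorem PP_zero (g : ℕ) [NeZero g]
    (p : (Fin 14 × ZMod g) × (Fin 14 × ZMod g)) (hp : p ∈ PP g) :
    lamR g p.1 + lamC g p.2 + lamS g (LL g p.1 p.2) = 0 := by
  obtain ⟨⟨I, i⟩, J, j⟩ := p
  simp only [PP, Finset.mem_filter, Finset.mem_univ, true_and] at hp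
  have hz := zero_coarse _ _ _ hp
  simp only [lamR, lamC, lamS, LL, map_sub, map_neg, phi_natCast]
  have hz' := congrArg (fun n : ℕ => (n : ZMod (9 * g))) hz
  simp only [Nat.cast_add, Nat.cast_mul, Nat.cast_ofNat] at hz'
  linear_combination hz'

theorem rc_sum (b : Bool) : ∑ I : Fin 14, rc b I = if b then 46 else 54 := by
  cases b <;> decide

theorem W_eq (g : ℕ) [NeZero g] (hodd : Odd g) :
    ∑ ρ, lamR g ρ + ∑ c, lamC g c + ∑ s, lamS g s = -((8 : ℕ) : ZMod (9 * g)) := by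
  have hC : ∑ c, lamC g c = ((g * 46 : ℕ) : ZMod (9 * g)) := by
    simp only [lamC]
    rw [Fintype.sum_prod_type]
    simp only [Finset.sum_add_distrib, phi_sum g hodd, Finset.sum_const, Finset.card_univ,
      ZMod.card, nsmul_eq_mul, add_zero]
    rw [← Finset.mul_sum, ← Nat.cast_sum, ← Nat.cast_mul]
    have : ∑ i : Fin 14, cl i = 46 := by decide
    rw [this]
  have hS : ∑ s, lamS g s = ((g * 62 : ℕ) : ZMod (9 * g)) := by
    simp only [lamS]
    rw [Fintype.sum_prod_type]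
    simp only [Finset.sum_add_distrib, phi_sum g hodd, Finset.sum_const, Finset.card_univ,
      ZMod.card, nsmul_eq_mul, add_zero]
    rw [← Finset.mul_sum, ← Nat.cast_sum, ← Nat.cast_mul]
    have : ∑ i : Fin 14, sl i = 62 := by decide
    rw [this]
  have hR : ∑ ρ, lamR g ρ = ((g * 54 : ℕ) : ZMod (9 * g)) - ((8 : ℕ) : ZMod (9 * g)) := by
    simp only [lamR]
    rw [Finset.sum_add_distrib, Fintype.sum_prod_type_right]
    have hphi : ∑ ρ : Fin 14 × ZMod g, phi g ρ.2 = 0 := by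
      rw [Fintype.sum_prod_type]
      simp only [phi_sum g hodd, Finset.sum_const_zero]
    rw [hphi, add_zero]
    have hi : ∀ i : ZMod g, ∑ I : Fin 14, ((rc (decide (i = 0)) I : ℕ) : ZMod (9 * g)) =
        ((54 : ℕ) : ZMod (9 * g)) - (if i = 0 then ((8 : ℕ) : ZMod (9 * g)) else 0) := by
      intro i
      rw [← Nat.cast_sum, rc_sum]
      by_cases h : i = 0
      · simp only [h, decide_true, if_true]
        push_cast
        ring
      · simp [h]
    rw [Finset.sum_congr rfl (fun i _ => hi i), Finset.sum_sub_distrib, Finset.sum_const,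
      Finset.sum_ite_eq', if_pos (Finset.mem_univ _), Finset.card_univ, ZMod.card, nsmul_eq_mul]
    push_cast
    ring
  have hz : ((9 * g : ℕ) : ZMod (9 * g)) = 0 := ZMod.natCast_self _
  rw [hR, hC, hS]
  push_cast at hz ⊢
  linear_combination (18 : ZMod (9 * g)) * hz

theorem exists_indivisible (g : ℕ) (hodd : Odd g) :
    ∃ L : Fin (14 * g) → Fin (14 * g) → Fin (14 * g), IsLatin L ∧
      ∃ P, IsIndivisible L (9 * g) P := by
  have hpos := hodd.pos
  have : NeZero g := ⟨by omega⟩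
  have hcard : Fintype.card (Fin 14 × ZMod g) = 14 * g := by
    simp [ZMod.card]
  have e : (Fin 14 × ZMod g) ≃ Fin (14 * g) := Fintype.equivFinOfCardEq hcard
  refine transport (14 * g) e e e (LL g) (LL_latin g) (9 * g) (PP g)
    ⟨PP_row g, PP_col g, PP_sym g⟩ (lamR g) (lamC g) (lamS g)
    (fun p hp => PP_zero g p hp) ?_
  rw [W_eq g hodd]
  refine IsUnit.neg ((ZMod.isUnit_iff_coprime _ _).mpr ?_)
  have h2 : Nat.Coprime 2 g := (Nat.coprime_two_left).mpr hodd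
  have hD : Nat.Coprime 8 g := by
    have := Nat.Coprime.pow_left 3 h2
    simpa using this
  exact Nat.Coprime.mul_right (by norm_num) hD

theorem kappa_bdd (n : ℕ) (hn : 0 < n) :
    BddAbove {k | 1 ≤ k ∧ ∃ L : Fin n → Fin n → Fin n, IsLatin L ∧ ∃ P, IsIndivisible L k P} := by
  refine ⟨n * n, ?_⟩
  rintro k ⟨-, L, -, P, hP⟩
  rw [← hP.1.1 ⟨0, hn⟩]
  calc _ ≤ P.card := Finset.card_filter_le _ _
    _ ≤ Fintype.card (Fin n × Fin n) := Finset.card_le_univ _
    _ = n * n := by simp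

/-- For every odd `g` there is a Latin square of order `14g` containing an indivisible
`9g`-plex; hence `κ(14g) ≥ 9g`. -/
theorem result : ∀ g : ℕ, Odd g →
    (∃ L : Fin (14 * g) → Fin (14 * g) → Fin (14 * g), IsLatin L ∧
      ∃ P, IsIndivisible L (9 * g) P) ∧ 9 * g ≤ kappa (14 * g) := by
  intro g hodd
  have hpos := hodd.pos
  have h := exists_indivisible g hodd
  exact ⟨h, le_csSup (kappa_bdd _ (by omega)) ⟨by omega, h⟩⟩

end Pool.Agent.Results.MP_185394_co.NineFourteenths
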